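import Pool.Agent.H84.TO.TargetsR

/-!
# SC: the signed count of quadratic divisors of a separable real polynomial
-/

open Polynomial

namespace Pool.Agent.H59.TO.SC

open Pool.Agent.H84.TO

/-! ### resultants of quadratic polynomials -/

theorem res_mul {K : Type*} [Field K] (a b : K) (g : K[X]) (n : ℕ) (hn : g.natDegree ≤ n) :
    resultant ((X - C a) * (X - C b)) g 2 n = g.eval a * g.eval b := by
  have h := resultant_mul_left (X - C a) (X - C b) g n hn
  rw [natDegree_X_sub_C, natDegree_X_sub_C] at h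
  rw [show (2 : ℕ) = 1 + 1 from rfl, h, resultant_X_sub_C_left _ _ _ hn,
    resultant_X_sub_C_left _ _ _ hn]

theorem Rs_split (a b : ℝ) (g : ℝ[X]) :
    Rs ((X - C a) * (X - C b)) g = g.eval a * g.eval b := by
  unfold Rs
  have h2 : ((X - C a) * (X - C b)).natDegree = 2 := by
    rw [Monic.natDegree_mul (monic_X_sub_C a) (monic_X_sub_C b)]
    simp
  rw [h2]
  exact res_mul a b g _ le_rfl

/-- a real quadratic polynomial without real roots over the complex numbers -/
theorem exists_complex {q : ℝ[X]} (hq : q.Monic) (h2 : q.natDegree = 2)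
    (hr : ∀ x : ℝ, q.eval x ≠ 0) :
    ∃ z : ℂ, q.map (algebraMap ℝ ℂ) = (X - C ((starRingEnd ℂ) z)) * (X - C z) := by
  obtain ⟨z, hz⟩ := IsAlgClosed.exists_aeval_eq_zero ℂ q (by
    rw [degree_eq_natDegree hq.ne_zero, h2]
    norm_num)
  have him : z.im ≠ 0 := by
    intro h0
    have hz' : z = algebraMap ℝ ℂ z.re := by
      apply Complex.ext
      · simp
      · simp [h0]
    rw [hz', aeval_algebraMap_apply, map_eq_zero] at hz
    exact hr z.re (by simpa using hz)
  refine ⟨z, ?_⟩
  have hd := q.mul_star_dvd_of_aeval_eq_zero_im_ne_zero hz him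
  have hm : ((X - C ((starRingEnd ℂ) z)) * (X - C z)).Monic :=
    (monic_X_sub_C _).mul (monic_X_sub_C _)
  refine (eq_of_monic_of_dvd_of_natDegree_le hm (hq.map _) hd ?_)
  rw [Monic.natDegree_mul (monic_X_sub_C _) (monic_X_sub_C _), natDegree_map, h2]
  simp

theorem eval_pos {q : ℝ[X]} (hq : q.Monic) (h2 : q.natDegree = 2)
    (hr : ∀ x : ℝ, q.eval x ≠ 0) (x : ℝ) : 0 < q.eval x := by
  obtain ⟨z, hz⟩ := exists_complex hq h2 hr
  have h1 : ((q.eval x : ℝ) : ℂ) = ((Complex.normSq ((x : ℂ) - z) : ℝ) : ℂ) := by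
    have h3 : ((q.eval x : ℝ) : ℂ) = (q.map (algebraMap ℝ ℂ)).eval (x : ℂ) := by
      have := eval_map_algebraMap (B := ℂ) q (x : ℂ)
      rw [this]
      have h4 := aeval_algebraMap_apply (B := ℂ) (A := ℝ) x q
      simpa using h4.symm
    rw [h3, hz, Complex.normSq_eq_conj_mul_self]
    simp
  have h3 : q.eval x = Complex.normSq ((x : ℂ) - z) := by exact_mod_cast h1
  have h4 := Complex.normSq_nonneg ((x : ℂ) - z)
  rw [← h3] at h4
  exact lt_of_le_of_ne h4 (hr x).symm

theorem Rs_nonneg {q g : ℝ[X]} (hq : q.Monic) (h2 : q.natDegree = 2)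
    (hr : ∀ x : ℝ, q.eval x ≠ 0) : 0 ≤ Rs q g := by
  obtain ⟨z, hz⟩ := exists_complex hq h2 hr
  have h1 : ((Rs q g : ℝ) : ℂ) = resultant (q.map (algebraMap ℝ ℂ)) (g.map (algebraMap ℝ ℂ))
      q.natDegree g.natDegree := by
    rw [resultant_map_map]
    rfl
  have h3 : (g.map (algebraMap ℝ ℂ)).eval ((starRingEnd ℂ) z) =
      (starRingEnd ℂ) ((g.map (algebraMap ℝ ℂ)).eval z) := by
    rw [eval_map_algebraMap, eval_map_algebraMap]
    have := aeval_conj g z
    simpa using this
  rw [hz, h2, res_mul _ _ _ _ (natDegree_map_le), h3, ← Complex.normSq_eq_conj_mul_self] at h1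
  have h4 : Rs q g = Complex.normSq ((g.map (algebraMap ℝ ℂ)).eval z) := by exact_mod_cast h1
  rw [h4]
  exact Complex.normSq_nonneg _

/-! ### signs -/

/-- the sign of the derivative at a root -/
noncomputable def sg (A : Finset ℝ) (a : ℝ) : ℤ := (-1) ^ (A.filter (fun b => a < b)).card

theorem sg_sq (A : Finset ℝ) (a : ℝ) : sg A a * sg A a = 1 := by
  unfold sg
  rw [← pow_add, ← two_mul, pow_mul]
  simp

theorem sg_or (A : Finset ℝ) (a : ℝ) : sg A a = 1 ∨ sg A a = -1 := neg_one_pow_eq_or ℤ _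

theorem sum_sg (A : Finset ℝ) : ∑ a ∈ A, sg A a = if Even A.card then 0 else 1 := by
  induction A using Finset.induction_on_min with
  | empty => simp
  | insert a s ha ih =>
    have has : a ∉ s := fun h => lt_irrefl _ (ha a h)
    have h1 : sg (insert a s) a = (-1) ^ s.card := by
      unfold sg
      congr 2
      ext b
      simp only [Finset.mem_filter, Finset.mem_insert]
      constructor
      · rintro ⟨rfl | h, h'⟩
        · exact absurd h' (lt_irrefl _)
        · exact h
      · exact fun h => ⟨Or.inr h, ha b h⟩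
    have h2 : ∀ b ∈ s, sg (insert a s) b = sg s b := by
      intro b hb
      unfold sg
      congr 2
      ext c
      simp only [Finset.mem_filter, Finset.mem_insert]
      constructor
      · rintro ⟨rfl | h, h'⟩
        · exact absurd h' (not_lt.2 (ha b hb).le)
        · exact ⟨h, h'⟩
      · exact fun h => ⟨Or.inr h.1, h.2⟩
    rw [Finset.sum_insert has, h1, Finset.sum_congr rfl h2, ih, Finset.card_insert_of_notMem has]
    by_cases he : Even s.card
    · simp [he, he.neg_one_pow, Nat.even_add_one]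
    · simp [he, (Nat.not_even_iff_odd.1 he).neg_one_pow, Nat.even_add_one]

theorem prod_pos (A : Finset ℝ) (a : ℝ) :
    0 < (∏ b ∈ A.erase a, (a - b)) * (sg A a : ℝ) := by
  have h1 : ((sg A a : ℤ) : ℝ) = ∏ b ∈ A.erase a, (if a < b then (-1 : ℝ) else 1) := by
    rw [Finset.prod_ite]
    simp only [Finset.prod_const, one_pow, mul_one]
    unfold sg
    push_cast
    congr 2
    ext b
    simp only [Finset.mem_filter, Finset.mem_erase]
    constructor
    · exact fun h => ⟨⟨h.2.ne', h.1⟩, h.2⟩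
    · exact fun h => ⟨h.1.2, h.2⟩
  rw [h1, ← Finset.prod_mul_distrib]
  refine Finset.prod_pos fun b hb => ?_
  have hne : b ≠ a := (Finset.mem_erase.1 hb).1
  by_cases hab : a < b
  · rw [if_pos hab]
    nlinarith
  · rw [if_neg hab]
    have : b < a := lt_of_le_of_ne (not_lt.1 hab) hne
    nlinarith

theorem double_count (A : Finset ℝ) (he : Even A.card) :
    2 * ∑ p ∈ (A ×ˢ A).filter (fun p => p.1 < p.2), sg A p.1 * sg A p.2 = -(A.card : ℤ) := by
  have h0 : ∑ a ∈ A, sg A a = 0 := by
    rw [sum_sg, if_pos he]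
  have h1 : (∑ a ∈ A, sg A a) * (∑ a ∈ A, sg A a) = 0 := by rw [h0]; simp
  rw [Finset.sum_mul_sum] at h1
  have h2 : ∑ a ∈ A, ∑ b ∈ A, sg A a * sg A b =
      ∑ a ∈ A, ∑ b ∈ A, (if a < b then sg A a * sg A b else 0) +
      ∑ a ∈ A, ∑ b ∈ A, (if b < a then sg A a * sg A b else 0) +
      ∑ a ∈ A, ∑ b ∈ A, (if a = b then sg A a * sg A b else 0) := by
    simp_rw [← Finset.sum_add_distrib]
    refine Finset.sum_congr rfl fun a _ => Finset.sum_congr rfl fun b _ => ?_
    rcases lt_trichotomy a b with h | h | h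
    · simp [h, h.not_gt, h.ne]
    · simp [h]
    · simp [h, h.not_gt, h.ne']
  have h3 : ∑ a ∈ A, ∑ b ∈ A, (if b < a then sg A a * sg A b else 0) =
      ∑ a ∈ A, ∑ b ∈ A, (if a < b then sg A a * sg A b else 0) := by
    rw [Finset.sum_comm]
    refine Finset.sum_congr rfl fun a _ => Finset.sum_congr rfl fun b _ => ?_
    rw [mul_comm]
  have h4 : ∑ a ∈ A, ∑ b ∈ A, (if a = b then sg A a * sg A b else 0) = A.card := by
    have : ∀ a ∈ A, ∑ b ∈ A, (if a = b then sg A a * sg A b else 0) = (1 : ℤ) := by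
      intro a ha
      rw [Finset.sum_ite_eq, if_pos ha, sg_sq]
    rw [Finset.sum_congr rfl this]
    simp
  rw [Finset.sum_filter, Finset.sum_product]
  rw [h2, h3, h4] at h1
  linarith

/-! ### the factorization -/

open UniqueFactorizationMonoid in
theorem main (n : ℕ) (χ : ℝ[X]) (hm : χ.Monic) (hd : χ.natDegree = 2 * n)
    (hs : χ.Separable) :
    (QD χ).Finite ∧ (∀ q ∈ QD χ, Rs q (χ /ₘ q) ≠ 0) ∧
    {q ∈ QD χ | 0 < Rs q (χ /ₘ q)}.ncard = n + {q ∈ QD χ | Rs q (χ /ₘ q) < 0}.ncard := by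
  classical
  have h0 : χ ≠ 0 := hm.ne_zero
  have hsq : Squarefree χ := hs.squarefree
  -- cofactors
  have hcof : ∀ q : ℝ[X], q.Monic → q ∣ χ → χ = q * (χ /ₘ q) := by
    intro q hq hqχ
    obtain ⟨g, rfl⟩ := hqχ
    rw [mul_divByMonic_cancel_left _ hq]
  have hne : ∀ q ∈ QD χ, Rs q (χ /ₘ q) ≠ 0 := by
    rintro q ⟨hq, -, hqχ⟩
    have h1 := hcof q hq hqχ
    have h2 : IsCoprime q (χ /ₘ q) := by
      rw [h1] at hs
      exact hs.isCoprime
    exact resultant_ne_zero _ _ h2
  -- factors
  set S : Finset ℝ[X] := (normalizedFactors χ).toFinset with hS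
  have hmemS : ∀ p, p ∈ S ↔ Irreducible p ∧ p.Monic ∧ p ∣ χ := by
    intro p
    rw [hS, Multiset.mem_toFinset, mem_normalizedFactors_iff' h0]
    constructor
    · rintro ⟨h1, h2, h3⟩
      refine ⟨h1, ?_, h3⟩
      rw [← h2]
      exact monic_normalize h1.ne_zero
    · rintro ⟨h1, h2, h3⟩
      exact ⟨h1, h2.normalize_eq_self, h3⟩
  have hprodS : ∏ p ∈ S, p = χ := by
    have h1 : (normalizedFactors χ).prod = χ := by
      rw [prod_normalizedFactors_eq h0, hm.normalize_eq_self]
    have h2 : (normalizedFactors χ).Nodup := (squarefree_iff_nodup_normalizedFactors h0).1 hsq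
    conv_rhs => rw [← h1]
    rw [Finset.prod_eq_multiset_prod, hS, Multiset.toFinset_val, h2.dedup]
    simp
  set A : Finset ℝ := χ.roots.toFinset with hA
  have hmemA : ∀ a, a ∈ A ↔ χ.eval a = 0 := by
    intro a
    rw [hA, Multiset.mem_toFinset, mem_roots h0]
    rfl
  set B : Finset ℝ[X] := S.filter (fun p => p.natDegree = 2) with hB
  have hBroot : ∀ p ∈ B, p.Monic ∧ p.natDegree = 2 ∧ ∀ x : ℝ, p.eval x ≠ 0 := by
    intro p hp
    obtain ⟨h1, h2⟩ := Finset.mem_filter.1 hp
    obtain ⟨h3, h4, -⟩ := (hmemS p).1 h1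
    refine ⟨h4, h2, fun x hx => ?_⟩
    have h5 := degree_eq_one_of_irreducible_of_root h3 (x := x) hx
    rw [degree_eq_natDegree h4.ne_zero, h2] at h5
    norm_num at h5
  have hL : S.filter (fun p => ¬ p.natDegree = 2) = A.image (fun a => X - C a) := by
    ext p
    simp only [Finset.mem_filter, Finset.mem_image, hmemS]
    constructor
    · rintro ⟨⟨h1, h2, h3⟩, h4⟩
      have h5 := h1.natDegree_le_two
      have h6 := h1.natDegree_pos
      have h7 : p.natDegree = 1 := by omega
      refine ⟨-p.coeff 0, ?_, ?_⟩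
      · rw [hmemA]
        refine eval_eq_zero_of_dvd_of_eval_eq_zero h3 ?_
        rw [eq_X_add_C_of_natDegree_le_one h7.le]
        have h8 : p.coeff 1 = 1 := by
          have := h2.coeff_natDegree
          rwa [h7] at this
        simp [h8]
      · conv_rhs => rw [eq_X_add_C_of_natDegree_le_one h7.le]
        have h8 : p.coeff 1 = 1 := by
          have := h2.coeff_natDegree
          rwa [h7] at this
        simp [h8]
    · rintro ⟨a, ha, rfl⟩
      rw [hmemA] at ha
      refine ⟨⟨irreducible_X_sub_C a, monic_X_sub_C a, dvd_iff_isRoot.2 ha⟩, ?_⟩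
      rw [natDegree_X_sub_C]
      norm_num
  have hinjX : Set.InjOn (fun a : ℝ => (X - C a : ℝ[X])) (A : Set ℝ) := by
    intro a _ b _ hab
    have h1 : (X - C a : ℝ[X]) = X - C b := hab
    have h2 := congrArg (fun p => p.coeff 0) h1
    simpa using h2
  have hprod : χ = (∏ a ∈ A, (X - C a)) * ∏ p ∈ B, p := by
    conv_lhs => rw [← hprodS]
    rw [← Finset.prod_filter_mul_prod_filter_not S (fun p => p.natDegree = 2), hL,
      Finset.prod_image hinjX, mul_comm]
  have hBmonic : (∏ p ∈ B, p).Monic := monic_prod_of_monic _ _ fun p hp => (hBroot p hp).1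
  have hAmonic : (∏ a ∈ A, (X - C a : ℝ[X])).Monic :=
    monic_prod_of_monic _ _ fun a _ => monic_X_sub_C a
  have hdeg : A.card + 2 * B.card = 2 * n := by
    rw [← hd]
    conv_rhs => rw [hprod]
    rw [hAmonic.natDegree_mul hBmonic, natDegree_prod_of_monic _ _ fun a _ => monic_X_sub_C a,
      natDegree_prod_of_monic _ _ fun p hp => (hBroot p hp).1,
      Finset.sum_congr rfl fun p hp => (hBroot p hp).2.1]
    simp [mul_comm]
  have heven : Even A.card := by
    have : A.card = 2 * (n - B.card) := by omega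
    rw [this]
    exact even_two_mul _
  -- the sign of the derivative
  have hder : ∀ a ∈ A, 0 < χ.derivative.eval a * (sg A a : ℝ) := by
    intro a ha
    have h1 : χ = (X - C a) * ((∏ b ∈ A.erase a, (X - C b)) * ∏ p ∈ B, p) := by
      rw [← mul_assoc, Finset.mul_prod_erase A (fun b => (X - C b : ℝ[X])) ha]
      exact hprod
    have h2 : χ.derivative.eval a = (∏ b ∈ A.erase a, (a - b)) * ∏ p ∈ B, p.eval a := by
      conv_lhs => rw [h1]
      rw [derivative_mul, eval_add, eval_mul, eval_mul]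
      simp [eval_prod]
    rw [h2, mul_right_comm]
    refine mul_pos (prod_pos A a) (Finset.prod_pos fun p hp => ?_)
    exact eval_pos (hBroot p hp).1 (hBroot p hp).2.1 (hBroot p hp).2.2 a
  -- signs of the resultants
  have hpos : ∀ p ∈ B, 0 < Rs p (χ /ₘ p) := by
    intro p hp
    have h1 : p ∈ QD χ := by
      refine ⟨(hBroot p hp).1, (hBroot p hp).2.1, ?_⟩
      exact ((hmemS p).1 (Finset.mem_filter.1 hp).1).2.2
    exact lt_of_le_of_ne (Rs_nonneg (hBroot p hp).1 (hBroot p hp).2.1 (hBroot p hp).2.2)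
      (hne p h1).symm
  let Q : ℝ × ℝ → ℝ[X] := fun p => (X - C p.1) * (X - C p.2)
  have hQm : ∀ p, (Q p).Monic := fun p => (monic_X_sub_C _).mul (monic_X_sub_C _)
  have hQd : ∀ p, (Q p).natDegree = 2 := fun p => by
    change ((X - C p.1) * (X - C p.2) : ℝ[X]).natDegree = 2
    rw [Monic.natDegree_mul (monic_X_sub_C _) (monic_X_sub_C _)]
    simp
  set T : Finset (ℝ × ℝ) := (A ×ˢ A).filter (fun p => p.1 < p.2) with hT
  have hQdvd : ∀ p ∈ T, Q p ∣ χ := by
    intro p hp
    obtain ⟨h1, h2⟩ := Finset.mem_filter.1 hp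
    obtain ⟨h3, h4⟩ := Finset.mem_product.1 h1
    refine IsCoprime.mul_dvd ?_ (dvd_iff_isRoot.2 ((hmemA _).1 h3))
      (dvd_iff_isRoot.2 ((hmemA _).1 h4))
    exact isCoprime_X_sub_C_of_isUnit_sub (sub_ne_zero.2 h2.ne).isUnit
  have hQsign : ∀ p ∈ T, ∃ c : ℝ, 0 < c ∧
      Rs (Q p) (χ /ₘ Q p) * c = -((sg A p.1 * sg A p.2 : ℤ) : ℝ) := by
    intro p hp
    obtain ⟨h1, h2⟩ := Finset.mem_filter.1 hp
    obtain ⟨h3, h4⟩ := Finset.mem_product.1 h1
    have h5 := hcof (Q p) (hQm p) (hQdvd p hp)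
    set g := χ /ₘ Q p with hg
    have h6 : χ.derivative.eval p.1 = (p.1 - p.2) * g.eval p.1 := by
      rw [h5]
      change (derivative ((X - C p.1) * (X - C p.2) * g)).eval p.1 = _
      simp [derivative_mul]
    have h7 : χ.derivative.eval p.2 = (p.2 - p.1) * g.eval p.2 := by
      rw [h5]
      change (derivative ((X - C p.1) * (X - C p.2) * g)).eval p.2 = _
      simp [derivative_mul]
    have h8 : Rs (Q p) g = g.eval p.1 * g.eval p.2 := Rs_split p.1 p.2 g
    have h9 := hder p.1 h3
    have h10 := hder p.2 h4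
    have hd' : 0 < p.2 - p.1 := sub_pos.2 h2
    have hs1 : ((sg A p.1 : ℤ) : ℝ) * sg A p.1 = 1 := by exact_mod_cast sg_sq A p.1
    have hs2 : ((sg A p.2 : ℤ) : ℝ) * sg A p.2 = 1 := by exact_mod_cast sg_sq A p.2
    -- R * (p2-p1)^2 = - d1 * d2
    have h11 : Rs (Q p) g * (p.2 - p.1) ^ 2 =
        -(χ.derivative.eval p.1 * χ.derivative.eval p.2) := by
      rw [h8, h6, h7]
      ring
    refine ⟨(p.2 - p.1) ^ 2 / ((χ.derivative.eval p.1 * sg A p.1) *
      (χ.derivative.eval p.2 * sg A p.2)), by positivity, ?_⟩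
    rw [mul_div_assoc', h11, div_eq_iff (by positivity)]
    push_cast
    linear_combination (χ.derivative.eval p.1 * χ.derivative.eval p.2 *
      ((sg A p.1 : ℤ) : ℝ) * ((sg A p.1 : ℤ) : ℝ)) * hs2 +
      (χ.derivative.eval p.1 * χ.derivative.eval p.2) * hs1
  have hinjQ : Set.InjOn Q (T : Set (ℝ × ℝ)) := by
    intro p hp q hq hpq
    obtain ⟨h1, h2⟩ := Finset.mem_filter.1 hp
    obtain ⟨h3, h4⟩ := Finset.mem_filter.1 hq
    have hev : ∀ x : ℝ, (x - p.1) * (x - p.2) = (x - q.1) * (x - q.2) := by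
      intro x
      have := congrArg (fun f : ℝ[X] => f.eval x) hpq
      simpa [Q] using this
    have e1 := hev p.1
    have e2 := hev p.2
    rw [sub_self, zero_mul] at e1
    rw [sub_self, mul_zero] at e2
    have e1' := mul_eq_zero.1 e1.symm
    have e2' := mul_eq_zero.1 e2.symm
    apply Prod.ext <;> rcases e1' with h | h <;> rcases e2' with h' | h' <;> linarith
  have hdisj : Disjoint B (T.image Q) := by
    rw [Finset.disjoint_left]
    intro p hp hp'
    obtain ⟨t, -, rfl⟩ := Finset.mem_image.1 hp'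
    refine (hBroot _ hp).2.2 t.1 ?_
    simp [Q]
  have hQD : QD χ = ((B ∪ T.image Q : Finset ℝ[X]) : Set ℝ[X]) := by
    ext q
    rw [Finset.coe_union, Set.mem_union, Finset.mem_coe, Finset.mem_coe]
    constructor
    · rintro ⟨h1, h2, h3⟩
      by_cases hr : ∃ x : ℝ, q.eval x = 0
      · right
        obtain ⟨a, ha⟩ := hr
        obtain ⟨k, hk⟩ := dvd_iff_isRoot.2 ha
        have hkm : k.Monic := by
          rw [hk] at h1
          exact (monic_X_sub_C a).of_mul_monic_left h1
        have hkd : k.natDegree = 1 := by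
          rw [hk, Monic.natDegree_mul (monic_X_sub_C a) hkm, natDegree_X_sub_C] at h2
          omega
        obtain ⟨b, hb⟩ : ∃ b : ℝ, k = X - C b := by
          refine ⟨-k.coeff 0, ?_⟩
          conv_lhs => rw [eq_X_add_C_of_natDegree_le_one hkd.le]
          have h8 : k.coeff 1 = 1 := by
            have := hkm.coeff_natDegree
            rwa [hkd] at this
          simp [h8]
        subst hb
        subst hk
        have hab : a ≠ b := by
          rintro rfl
          have h4 := hsq _ h3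
          exact (irreducible_X_sub_C a).not_isUnit h4
        have haA : a ∈ A := (hmemA a).2 (eval_eq_zero_of_dvd_of_eval_eq_zero h3 (by simp))
        have hbA : b ∈ A := (hmemA b).2 (eval_eq_zero_of_dvd_of_eval_eq_zero h3 (by simp))
        rcases lt_or_gt_of_ne hab with h5 | h5
        · refine Finset.mem_image.2 ⟨(a, b), ?_, rfl⟩
          exact Finset.mem_filter.2 ⟨Finset.mem_product.2 ⟨haA, hbA⟩, h5⟩
        · refine Finset.mem_image.2 ⟨(b, a), ?_, mul_comm _ _⟩
          exact Finset.mem_filter.2 ⟨Finset.mem_product.2 ⟨hbA, haA⟩, h5⟩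
      · left
        push Not at hr
        refine Finset.mem_filter.2 ⟨(hmemS q).2 ⟨?_, h1, h3⟩, h2⟩
        exact irreducible_of_degree_le_three_of_not_isRoot (by rw [h2]; decide)
          fun x hx => hr x hx
    · rintro (h1 | h1)
      · exact ⟨(hBroot q h1).1, (hBroot q h1).2.1,
          ((hmemS q).1 (Finset.mem_filter.1 h1).1).2.2⟩
      · obtain ⟨t, ht, rfl⟩ := Finset.mem_image.1 h1
        exact ⟨hQm t, hQd t, hQdvd t ht⟩
  refine ⟨by rw [hQD]; exact Finset.finite_toSet _, hne, ?_⟩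
  -- counting
  have hcard1 : {q ∈ QD χ | 0 < Rs q (χ /ₘ q)}.ncard =
      ((B ∪ T.image Q).filter (fun q => 0 < Rs q (χ /ₘ q))).card := by
    rw [← Set.ncard_coe_finset]
    congr 1
    ext q
    rw [hQD]
    simp
  have hcard2 : {q ∈ QD χ | Rs q (χ /ₘ q) < 0}.ncard =
      ((B ∪ T.image Q).filter (fun q => Rs q (χ /ₘ q) < 0)).card := by
    rw [← Set.ncard_coe_finset]
    congr 1
    ext q
    rw [hQD]
    simp
  rw [hcard1, hcard2]
  have hsum : (((B ∪ T.image Q).filter (fun q => 0 < Rs q (χ /ₘ q))).card : ℤ) -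
      (((B ∪ T.image Q).filter (fun q => Rs q (χ /ₘ q) < 0)).card : ℤ) =
      B.card - ∑ p ∈ T, sg A p.1 * sg A p.2 := by
    rw [Finset.card_filter, Finset.card_filter]
    push_cast
    rw [← Finset.sum_sub_distrib, Finset.sum_union hdisj, Finset.sum_image hinjQ]
    have e1 : ∑ x ∈ B, ((if 0 < Rs x (χ /ₘ x) then (1 : ℤ) else 0) -
        if Rs x (χ /ₘ x) < 0 then 1 else 0) = B.card := by
      have : ∀ x ∈ B, ((if 0 < Rs x (χ /ₘ x) then (1 : ℤ) else 0) -
          if Rs x (χ /ₘ x) < 0 then 1 else 0) = 1 := by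
        intro x hx
        have h1 := hpos x hx
        rw [if_pos h1, if_neg h1.not_gt]
        norm_num
      rw [Finset.sum_congr rfl this]
      simp
    have e2 : ∑ x ∈ T, ((if 0 < Rs (Q x) (χ /ₘ Q x) then (1 : ℤ) else 0) -
        if Rs (Q x) (χ /ₘ Q x) < 0 then 1 else 0) = -∑ p ∈ T, sg A p.1 * sg A p.2 := by
      rw [← Finset.sum_neg_distrib]
      refine Finset.sum_congr rfl fun x hx => ?_
      obtain ⟨c, hc, h1⟩ := hQsign x hx
      have h2 : sg A x.1 * sg A x.2 = 1 ∨ sg A x.1 * sg A x.2 = -1 := by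
        rcases sg_or A x.1 with h | h <;> rcases sg_or A x.2 with h' | h' <;> simp [h, h']
      rcases h2 with h2 | h2
      · rw [h2] at h1
        have h3 : Rs (Q x) (χ /ₘ Q x) < 0 := by
          by_contra h4
          push Not at h4
          have := mul_nonneg h4 hc.le
          rw [h1] at this
          norm_num at this
        rw [if_neg h3.not_gt, if_pos h3, h2]
        norm_num
      · rw [h2] at h1
        have h3 : 0 < Rs (Q x) (χ /ₘ Q x) := by
          by_contra h4
          push Not at h4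
          have := mul_nonpos_of_nonpos_of_nonneg h4 hc.le
          rw [h1] at this
          norm_num at this
        rw [if_pos h3, if_neg h3.not_gt, h2]
        norm_num
    rw [e1, e2]
    ring
  have hdc := double_count A heven
  rw [← hT] at hdc
  have hdeg' : (A.card : ℤ) + 2 * B.card = 2 * n := by exact_mod_cast hdeg
  have : (((B ∪ T.image Q).filter (fun q => 0 < Rs q (χ /ₘ q))).card : ℤ) =
      n + (((B ∪ T.image Q).filter (fun q => Rs q (χ /ₘ q) < 0)).card : ℤ) := by
    linarith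
  exact_mod_cast this

theorem sc : T_SC := main

end Pool.Agent.H59.TO.SC
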